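import Pool.Agent.Y975.QF.Op1

/-!
Project QF, job QF-OP, part 3: the bilinear forms.
-/

set_option autoImplicit false

namespace Pool.Agent.Y975.QF

open MeasureTheory Set Filter Complex Topology
open Pool.Agent.Y752.QF

noncomputable section

/-- the bilinear form of two characters -/
def BB (R : ℕ) (H N N' : ℝ) (Y Z : ℕ) (p p' : DC) : ℂ :=
  ∑ m ∈ Finset.Ioc Y Z, ∑ n ∈ Finset.Ioc Y Z, cv p m * (starRingEnd ℂ) (cv p' n) *
    ((cut R (m / N) * cut R (n / N') / (Real.sqrt m * Real.sqrt n) *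
      ker H (Real.log m - Real.log n) : ℝ) : ℂ)

lemma cv_norm' (p : DC) (n : ℕ) : ‖cv p n‖ ≤ 1 := DirichletCharacter.norm_le_one p.2 _

lemma v_anti (R : ℕ) {N : ℝ} (hN : 0 < N) : Antitone fun n : ℕ => cut R (n / N) := by
  intro m n hmn
  refine cut_anti R (by positivity) ?_
  have : (m : ℝ) ≤ n := by exact_mod_cast hmn
  gcongr

lemma v_cube (R : ℕ) {N M : ℝ} (hN : 0 < N) (hNM : N ≤ M) (n : ℕ) (hn : 1 ≤ n) :
    cut R (n / N) ≤ 6 * (R + 1) * (M / n) ^ 3 := by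
  have hn0 : (0 : ℝ) < n := by exact_mod_cast hn
  refine (cut_cube R (by positivity)).trans ?_
  rw [inv_div]
  gcongr

lemma gcd_sum (q R : ℕ) (hq : q ≠ 0) : ∑ r ∈ Finset.Icc 1 R,
    (∑ d ∈ (Nat.gcd q r).divisors, (d : ℝ)) / q ≤ ((q.divisors.card : ℝ) / q) * R := by
  have hq0 : (0 : ℝ) < q := by exact_mod_cast Nat.pos_of_ne_zero hq
  rw [← Finset.sum_div, div_mul_eq_mul_div]
  refine div_le_div_of_nonneg_right ?_ hq0.le
  have h1 : ∀ r ∈ Finset.Icc 1 R, ∑ d ∈ (Nat.gcd q r).divisors, (d : ℝ) =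
      ∑ d ∈ q.divisors, if d ∣ r then (d : ℝ) else 0 := by
    intro r hr
    rw [← Finset.sum_filter]
    refine Finset.sum_congr ?_ fun _ _ => rfl
    ext d
    simp only [Nat.mem_divisors, Finset.mem_filter, Nat.dvd_gcd_iff, ne_eq]
    constructor
    · rintro ⟨⟨a, b⟩, _⟩
      exact ⟨⟨a, hq⟩, b⟩
    · rintro ⟨⟨a, _⟩, b⟩
      exact ⟨⟨a, b⟩, Nat.gcd_ne_zero_left hq⟩
  rw [Finset.sum_congr rfl h1, Finset.sum_comm]
  have h2 : ∀ d ∈ q.divisors, ∑ r ∈ Finset.Icc 1 R, (if d ∣ r then (d : ℝ) else 0) ≤ R := by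
    intro d _
    rw [← Finset.sum_filter, Finset.sum_const, nsmul_eq_mul]
    have h3 : ((Finset.Icc 1 R).filter fun r => d ∣ r).card = R / d := by
      have : Finset.Icc 1 R = Finset.Ioc 0 R := by
        ext x
        simp [Finset.mem_Icc, Finset.mem_Ioc, Nat.succ_le_iff]
      rw [this, Nat.Ioc_filter_dvd_card_eq_div]
    rw [h3]
    exact_mod_cast Nat.div_mul_le_self R d
  calc ∑ d ∈ q.divisors, ∑ r ∈ Finset.Icc 1 R, (if d ∣ r then (d : ℝ) else 0) ≤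
        ∑ _d ∈ q.divisors, (R : ℝ) := Finset.sum_le_sum h2
    _ = _ := by rw [Finset.sum_const, nsmul_eq_mul]

lemma swap (p p' : DC) (r A B : ℕ) :
    ‖∑ n ∈ Finset.Ioc A B, cv p n * (starRingEnd ℂ) (cv p' (n + r))‖ =
      ‖∑ n ∈ Finset.Ioc A B, cv p' (n + r) * (starRingEnd ℂ) (cv p n)‖ := by
  rw [← Complex.norm_conj, map_sum]
  congr 1
  refine Finset.sum_congr rfl fun n _ => ?_
  rw [map_mul, Complex.conj_conj, mul_comm]

theorem diag (hc : S_COR) (h2 : S_CC2) (R : ℕ) : ∃ C : ℝ, 0 < C ∧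
    ∀ (H N : ℝ) (Y Z : ℕ) (p : DC), 1 ≤ Y → Y ≤ Z → 2 ≤ H → H ≤ N → N ≤ H ^ 2 → p.1 ≠ 0 →
    p.2.IsPrimitive → ‖BB R H N N Y Z p p‖ ≤ C * (1 + Real.log Z) ^ 2 *
      (1 + ((p.1.divisors.card : ℝ) / p.1) * N / H + p.1 * (1 / Y + 1 / H)) := by
  have hK : (1 : ℝ) ≤ 6 * (R + 1) := by
    have : (0 : ℝ) ≤ R := Nat.cast_nonneg R
    linarith
  obtain ⟨C, hC, hCOR⟩ := hc (6 * (R + 1)) hK
  refine ⟨C, hC, ?_⟩
  intro H N Y Z p hY hYZ hH hHN hNH hp0 hp
  have hN0 : 0 < N := by linarith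
  have hq0 : (0 : ℝ) < p.1 := by exact_mod_cast Nat.pos_of_ne_zero hp0
  have hq1 : (1 : ℝ) ≤ p.1 := by exact_mod_cast Nat.one_le_iff_ne_zero.2 hp0
  have h3 : ∀ r A B : ℕ, 1 ≤ r → A ≤ B →
      ‖∑ n ∈ Finset.Ioc A B, cv p (n + r) * (starRingEnd ℂ) (cv p n)‖ ≤
        (∑ d ∈ (Nat.gcd p.1 r).divisors, (d : ℝ)) / p.1 * (B - A) + p.1 :=
    fun r A B _ hAB => h2 p hp0 hp r A B hAB
  exact hCOR (cv p) (cv p) (fun n => cut R (n / N)) (fun n => cut R (n / N)) Y Z H N p.1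
    ((p.1.divisors.card : ℝ) / p.1) 1 (fun r => (∑ d ∈ (Nat.gcd p.1 r).divisors, (d : ℝ)) / p.1)
    (cv_norm' p) (cv_norm' p) (v_anti R hN0) (v_anti R hN0)
    (fun n => cut_nonneg R (by positivity)) (fun n => cut_le_one R (by positivity))
    (fun n => cut_nonneg R (by positivity)) (fun n => cut_le_one R (by positivity))
    (fun n hn => v_cube R hN0 le_rfl n hn) (fun n hn => v_cube R hN0 le_rfl n hn) hY hYZ hH hHN hNH
    hq1 (by positivity)
    (by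
      rw [div_le_one hq0]
      exact_mod_cast Nat.card_divisors_le_self p.1)
    zero_le_one (fun r => by positivity) (fun R' => gcd_sum p.1 R' hp0)
    (fun A B hAB => by
      refine (norm_sum_le_of_le _ (f := fun n => cv p n * (starRingEnd ℂ) (cv p n))
        (n := fun _ => (1 : ℝ)) fun n _ => ?_).trans ?_
      · rw [norm_mul, Complex.norm_conj]
        have := cv_norm' p n
        have h0 := norm_nonneg (cv p n)
        nlinarith
      · rw [Finset.sum_const, Nat.card_Ioc, nsmul_eq_mul, mul_one, Nat.cast_sub hAB]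
        linarith)
    h3 (fun r A B hr hAB => by
      rw [swap]
      exact h3 r A B hr hAB)

theorem off (hc : S_COR) (h1 : S_CC1) (R : ℕ) : ∃ C : ℝ, 0 < C ∧
    ∀ (X H N N' : ℝ) (Y Z : ℕ) (p p' : DC), 1 ≤ Y → Y ≤ Z → 2 ≤ H → H ≤ N → N ≤ H ^ 2 → H ≤ N' →
    N' ≤ H ^ 2 → 1 ≤ X → p.1 ≠ 0 → p'.1 ≠ 0 → (p.1 : ℝ) ≤ X → (p'.1 : ℝ) ≤ X →
    p.2.IsPrimitive → p'.2.IsPrimitive → p.1 ≠ p'.1 → ‖BB R H N N' Y Z p p'‖ ≤
      C * (1 + Real.log Z) ^ 2 * (X * (1 + 2 * Real.log X) * (1 / Y + 1 / H)) := by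
  have hK : (1 : ℝ) ≤ 6 * (R + 1) := by
    have : (0 : ℝ) ≤ R := Nat.cast_nonneg R
    linarith
  obtain ⟨C, hC, hCOR⟩ := hc (6 * (R + 1)) hK
  obtain ⟨C1, hC1, hCC⟩ := h1
  set C2 : ℝ := max C1 1 with hC2
  have hC21 : 1 ≤ C2 := le_max_right _ _
  refine ⟨C * C2, by positivity, ?_⟩
  intro X H N N' Y Z p p' hY hYZ hH hHN hNH hHN' hNH' hX hp0 hp0' hpX hpX' hp hp' hne
  have hN0 : 0 < N := by linarith
  have hN0' : 0 < N' := by linarith
  have hlogX : 0 ≤ Real.log X := Real.log_nonneg hX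
  have hq1 : (1 : ℝ) ≤ p.1 := by exact_mod_cast Nat.one_le_iff_ne_zero.2 hp0
  have hq1' : (1 : ℝ) ≤ p'.1 := by exact_mod_cast Nat.one_le_iff_ne_zero.2 hp0'
  set Q : ℝ := C2 * (X * (1 + 2 * Real.log X)) with hQ
  have hQ1 : 1 ≤ Q := by
    have : 1 ≤ X * (1 + 2 * Real.log X) := by nlinarith
    rw [hQ]
    nlinarith
  have hbd : ∀ a b : ℝ, 1 ≤ a → 1 ≤ b → a ≤ X → b ≤ X →
      C1 * Real.sqrt (a * b) * (1 + Real.log (a * b)) ≤ Q := by
    intro a b ha hb haX hbX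
    have h3 : a * b ≤ X ^ 2 := by
      rw [sq]
      exact mul_le_mul haX hbX (by linarith) (by linarith)
    have h4 : Real.sqrt (a * b) ≤ X := Real.sqrt_le_iff.2 ⟨by linarith, h3⟩
    have hab : 1 ≤ a * b := by nlinarith
    have h5 : Real.log (a * b) ≤ 2 * Real.log X := by
      have := Real.log_le_log (by linarith) h3
      rw [Real.log_pow] at this
      exact_mod_cast this
    have h6 : 0 ≤ Real.log (a * b) := Real.log_nonneg hab
    rw [hQ]
    calc C1 * Real.sqrt (a * b) * (1 + Real.log (a * b)) ≤ C2 * X * (1 + 2 * Real.log X) := by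
          have h7 : C1 ≤ C2 := le_max_left _ _
          gcongr
      _ = _ := by ring
  have hfin := hCOR (cv p) (cv p') (fun n => cut R (n / N)) (fun n => cut R (n / N')) Y Z H
    (max N N') Q 0 0 (fun _ => 0) (cv_norm' p) (cv_norm' p') (v_anti R hN0) (v_anti R hN0')
    (fun n => cut_nonneg R (by positivity)) (fun n => cut_le_one R (by positivity))
    (fun n => cut_nonneg R (by positivity)) (fun n => cut_le_one R (by positivity))
    (fun n hn => v_cube R hN0 (le_max_left _ _) n hn)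
    (fun n hn => v_cube R hN0' (le_max_right _ _) n hn) hY hYZ hH (hHN.trans (le_max_left _ _))
    (max_le hNH hNH') hQ1 le_rfl zero_le_one le_rfl (fun _ => le_rfl) (fun _ => by simp)
    (fun A B hAB => by
      rw [zero_mul, zero_add]
      have := hCC p p' hp0 hp0' hp hp' hne 0 A B hAB
      simp only [add_zero] at this
      exact this.trans (hbd _ _ hq1 hq1' hpX hpX'))
    (fun r A B _ hAB => by
      rw [zero_mul, zero_add]
      exact (hCC p p' hp0 hp0' hp hp' hne r A B hAB).trans (hbd _ _ hq1 hq1' hpX hpX'))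
    (fun r A B _ hAB => by
      rw [zero_mul, zero_add, swap]
      exact (hCC p' p hp0' hp0 hp' hp (Ne.symm hne) r A B hAB).trans
        (hbd _ _ hq1' hq1 hpX' hpX))
  refine hfin.trans (le_of_eq ?_)
  rw [hQ]
  ring

end

end Pool.Agent.Y975.QF
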