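import Pool.Agent.Y975.QF.Op2
import Pool.Agent.Y975.QF.Op3
import Pool.Agent.H510R2.Div
import Pool.Agent.TH928.GS.MV

/-!
Project QF, job QF-OP: the operator bound `S_OP` and the second moments `S_WIN`.
-/

set_option autoImplicit false

namespace Pool.Agent.Y975.QF

open MeasureTheory Set Filter Complex Topology
open Pool.Agent.Y752.QF

noncomputable section

/-- the second moment of the smoothed sums -/
lemma mainT (hK : S_KER) {H : ℝ} (hH : 0 < H) (R : ℕ) (Y Z : ℕ) (F : Finset DC) (w : DC → ℂ)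
    (N : DC → ℝ) :
    ∫ u in (0:ℝ)..H, ‖∑ p ∈ F, w p * TT R (N p) Y Z p u‖ ^ 2 ≤
      Real.exp 1 * (H * ∑ p ∈ F, ∑ p' ∈ F, ‖w p‖ * ‖w p'‖ * ‖BB R H (N p) (N p') Y Z p p'‖) := by
  set J : Finset (DC × ℕ) := F ×ˢ Finset.Ioc Y Z with hJ
  set c : DC × ℕ → ℂ := fun x => w x.1 * (cv x.1 x.2 *
    ((cut R (x.2 / N x.1) / √(x.2 : ℝ) : ℝ) : ℂ)) with hc
  set lam : DC × ℕ → ℝ := fun x => Real.log x.2 with hlam
  have e1 : ∀ u : ℝ, ∑ p ∈ F, w p * TT R (N p) Y Z p u =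
      ∑ x ∈ J, c x * Complex.exp (-(I * u * lam x)) := by
    intro u
    rw [hJ, Finset.sum_product]
    refine Finset.sum_congr rfl fun p _ => ?_
    rw [TT_exp, Finset.mul_sum]
    refine Finset.sum_congr rfl fun n _ => ?_
    rw [hc, hlam]
    ring
  simp_rw [e1]
  refine (quad hK hH J c lam).trans ?_
  refine mul_le_mul_of_nonneg_left (mul_le_mul_of_nonneg_left ?_ hH.le) (Real.exp_pos 1).le
  have e2 : ∑ x ∈ J, ∑ y ∈ J, c x * (starRingEnd ℂ) (c y) * (ker H (lam x - lam y) : ℂ) =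
      ∑ p ∈ F, ∑ p' ∈ F, w p * (starRingEnd ℂ) (w p') * BB R H (N p) (N p') Y Z p p' := by
    rw [hJ, Finset.sum_product]
    refine Finset.sum_congr rfl fun p _ => ?_
    have e3 : ∀ m ∈ Finset.Ioc Y Z, ∑ y ∈ F ×ˢ Finset.Ioc Y Z, c (p, m) * (starRingEnd ℂ) (c y) *
        (ker H (lam (p, m) - lam y) : ℂ) = ∑ p' ∈ F, ∑ n ∈ Finset.Ioc Y Z,
          c (p, m) * (starRingEnd ℂ) (c (p', n)) * (ker H (lam (p, m) - lam (p', n)) : ℂ) :=
      fun m _ => Finset.sum_product _ _ _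
    rw [Finset.sum_congr rfl e3, Finset.sum_comm]
    refine Finset.sum_congr rfl fun p' _ => ?_
    unfold BB
    rw [Finset.mul_sum]
    refine Finset.sum_congr rfl fun m _ => ?_
    rw [Finset.mul_sum]
    refine Finset.sum_congr rfl fun n _ => ?_
    rw [hc, hlam]
    simp only [map_mul, Complex.conj_ofReal]
    have e4 : ((cut R (m / N p) * cut R (n / N p') / (√(m : ℝ) * √(n : ℝ)) *
        ker H (Real.log m - Real.log n) : ℝ) : ℂ) = ((cut R (m / N p) / √(m : ℝ) : ℝ) : ℂ) *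
        ((cut R (n / N p') / √(n : ℝ) : ℝ) : ℂ) * (ker H (Real.log m - Real.log n) : ℂ) := by
      rw [← Complex.ofReal_mul, ← Complex.ofReal_mul]
      congr 1
      rw [div_mul_div_comm]
    rw [e4]
    ring
  rw [e2]
  refine (norm_sum_le _ _).trans (Finset.sum_le_sum fun p _ => ?_)
  refine (norm_sum_le _ _).trans (Finset.sum_le_sum fun p' _ => ?_)
  rw [norm_mul, norm_mul, Complex.norm_conj]

lemma log_pow_bd {δ B : ℝ} (hδ : 0 < δ) (hB : 0 ≤ B) {X : ℝ} (hX : 1 ≤ X) :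
    1 + B * Real.log X ≤ (1 + B / δ) * X ^ δ := by
  have h1 : Real.log X ≤ X ^ δ / δ := Real.log_le_rpow_div (by linarith) hδ
  have h2 : 1 ≤ X ^ δ := Real.one_le_rpow hX hδ.le
  calc 1 + B * Real.log X ≤ X ^ δ + B * (X ^ δ / δ) := by gcongr
    _ = _ := by ring

lemma LL_cont {p : DC} (hp : p.1 ≠ 0) (hp1 : p.2 ≠ 1) :
    Continuous fun u : ℝ => LL p (1 / 2 + I * (u : ℂ)) := by
  have : NeZero p.1 := ⟨hp⟩
  have h1 : ∀ s, LL p s = DirichletCharacter.LFunction p.2 s := by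
    intro s
    unfold LL
    rw [dif_pos hp]
  simp_rw [h1]
  exact (DirichletCharacter.differentiable_LFunction hp1).continuous.comp (by fun_prop)

lemma pw_cont (n : ℕ) : Continuous fun u : ℝ => (n : ℂ) ^ (-(1 / 2 + I * (u : ℂ))) := by
  rcases Nat.eq_zero_or_pos n with rfl | hn
  · have : (fun u : ℝ => ((0 : ℕ) : ℂ) ^ (-(1 / 2 + I * (u : ℂ)))) = fun _ => 0 := by
      funext u
      have hre : (-(1 / 2 + I * (u : ℂ))).re = -(1 / 2) := by simp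
      have h1 : -(1 / 2 + I * (u : ℂ)) ≠ 0 := by
        intro h
        rw [h] at hre
        norm_num at hre
      rw [Nat.cast_zero, Complex.zero_cpow h1]
    rw [this]
    exact continuous_const
  · have hn0 : (n : ℂ) ≠ 0 := by exact_mod_cast hn.ne'
    exact Continuous.const_cpow (by fun_prop) (Or.inl hn0)

lemma PY_cont (Y : ℕ) (p : DC) : Continuous fun u : ℝ => PY Y p u :=
  continuous_finsetSum _ fun n _ => continuous_const.mul (pw_cont n)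

lemma TT_cont (R : ℕ) (N : ℝ) (Y Z : ℕ) (p : DC) : Continuous fun u : ℝ => TT R N Y Z p u :=
  continuous_finsetSum _ fun n _ => (continuous_const.mul (pw_cont n)).mul continuous_const

lemma two_sq (a b : ℝ) : (a + b) ^ 2 ≤ 2 * a ^ 2 + 2 * b ^ 2 := by
  nlinarith [sq_nonneg (a - b)]

lemma num_d {x C t a b : ℝ} (hx : 1 ≤ x) (hC : 0 < C) (ht : 0 ≤ t) (ha : a ≤ C * x * x)
    (hb : b ≤ 2 * t) : 1 + a + b ≤ (3 + C) * x ^ 2 * (1 + t) := by
  have hx2 : 1 ≤ x ^ 2 := one_le_pow₀ hx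
  have h1 : 1 ≤ x ^ 2 * (1 + t) := one_le_mul_of_one_le_of_one_le hx2 (by linarith)
  have h2 : C * x ^ 2 ≤ C * x ^ 2 * (1 + t) := le_mul_of_one_le_right (by positivity) (by linarith)
  have h3 : (1 + t) ≤ x ^ 2 * (1 + t) := le_mul_of_one_le_left (by positivity) hx2
  have h4 : C * x * x = C * x ^ 2 := by ring
  have h5 : (3 + C) * x ^ 2 * (1 + t) = x ^ 2 * (1 + t) + C * x ^ 2 * (1 + t) +
      2 * (x ^ 2 * (1 + t)) := by ring
  linarith

lemma pow_three {X ε : ℝ} (hX : 0 < X) : X ^ ε = (X ^ (ε / 3)) ^ 3 := by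
  rw [← Real.rpow_natCast, ← Real.rpow_mul hX.le]
  congr 1
  push_cast
  ring

lemma num_z {H : ℝ} (hH : 2 ≤ H) : H ≤ H ^ 3 ∧ H ^ 3 + 1 ≤ H ^ 4 := by
  have h1 : 1 ≤ H ^ 2 := one_le_pow₀ (by linarith)
  have h2 : H ≤ H ^ 3 := by
    calc H = H * 1 := (mul_one H).symm
      _ ≤ H * H ^ 2 := mul_le_mul_of_nonneg_left h1 (by linarith)
      _ = H ^ 3 := by ring
  refine ⟨h2, ?_⟩
  have h3 : H ^ 4 = H * H ^ 3 := by ring
  have h4 : 2 * H ^ 3 ≤ H * H ^ 3 := mul_le_mul_of_nonneg_right hH (by positivity)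
  linarith

lemma num_f {D O c1 c2 Φ s1 s2 n E X H G : ℝ} (hO0 : 0 ≤ O) (hs20 : 0 ≤ s2) (hH0 : 0 < H)
    (hX1 : 1 ≤ X) (hCS : s1 ^ 2 ≤ n * s2) (hn : n ≤ X) (hΦ1 : 1 ≤ Φ) (hDΦ : D ≤ c1 * Φ)
    (hOΦ : O * n ≤ c2 * Φ) (hG : G ≤ Real.exp 1 * (H * (D * s2 + O * s1 ^ 2))) :
    2 * G + H * (2 * (s1 * (E / X)) ^ 2) ≤
      (2 * Real.exp 1 * (c1 + c2) + 2 * E ^ 2) * Φ * H * s2 := by
  have hX0 : 0 < X := by linarith
  have hfin1 : D * s2 + O * s1 ^ 2 ≤ (c1 + c2) * Φ * s2 := by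
    have h4 : O * s1 ^ 2 ≤ O * (n * s2) := mul_le_mul_of_nonneg_left hCS hO0
    have h5 : O * (n * s2) = O * n * s2 := by ring
    have h6 : O * n * s2 ≤ c2 * Φ * s2 := mul_le_mul_of_nonneg_right hOΦ hs20
    have h7 : D * s2 ≤ c1 * Φ * s2 := mul_le_mul_of_nonneg_right hDΦ hs20
    have h8 : (c1 + c2) * Φ * s2 = c1 * Φ * s2 + c2 * Φ * s2 := by ring
    linarith
  have hfin2 : (s1 * (E / X)) ^ 2 ≤ E ^ 2 * Φ * s2 := by
    have h4 : (s1 * (E / X)) ^ 2 = s1 ^ 2 * (E ^ 2 / X ^ 2) := by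
      rw [mul_pow, div_pow]
    rw [h4]
    have h5 : s1 ^ 2 * (E ^ 2 / X ^ 2) ≤ (X * s2) * (E ^ 2 / X ^ 2) := by
      refine mul_le_mul_of_nonneg_right (hCS.trans ?_) (by positivity)
      exact mul_le_mul_of_nonneg_right hn hs20
    have h6 : (X * s2) * (E ^ 2 / X ^ 2) = E ^ 2 * s2 * (1 / X) := by
      field_simp
    have h7 : 1 / X ≤ 1 := by
      rw [div_le_one hX0]
      exact hX1
    have h8 : E ^ 2 * s2 * (1 / X) ≤ E ^ 2 * s2 * 1 :=
      mul_le_mul_of_nonneg_left h7 (by positivity)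
    have h9 : E ^ 2 * s2 * 1 ≤ E ^ 2 * s2 * Φ := mul_le_mul_of_nonneg_left hΦ1 (by positivity)
    calc s1 ^ 2 * (E ^ 2 / X ^ 2) ≤ E ^ 2 * s2 * Φ := by linarith
      _ = _ := by ring
  have h10 : 2 * G ≤ 2 * (Real.exp 1 * (H * ((c1 + c2) * Φ * s2))) := by
    refine mul_le_mul_of_nonneg_left (hG.trans ?_) (by norm_num)
    exact mul_le_mul_of_nonneg_left (mul_le_mul_of_nonneg_left hfin1 hH0.le) (Real.exp_pos 1).le
  have h11 : H * (2 * (s1 * (E / X)) ^ 2) ≤ H * (2 * (E ^ 2 * Φ * s2)) :=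
    mul_le_mul_of_nonneg_left (mul_le_mul_of_nonneg_left hfin2 (by norm_num)) hH0.le
  have h12 : (2 * Real.exp 1 * (c1 + c2) + 2 * E ^ 2) * Φ * H * s2 =
      2 * (Real.exp 1 * (H * ((c1 + c2) * Φ * s2))) + H * (2 * (E ^ 2 * Φ * s2)) := by ring
  rw [h12]
  exact add_le_add h10 h11

/-- the double sum -/
lemma dsum (F : Finset DC) (w : DC → ℂ) (B : DC → DC → ℝ) (D O : ℝ)
    (hO : 0 ≤ O)
    (hd : ∀ p ∈ F, B p p ≤ D) (ho : ∀ p ∈ F, ∀ p' ∈ F, p ≠ p' → B p p' ≤ O) :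
    ∑ p ∈ F, ∑ p' ∈ F, ‖w p‖ * ‖w p'‖ * B p p' ≤
      D * ∑ p ∈ F, ‖w p‖ ^ 2 + O * (∑ p ∈ F, ‖w p‖) ^ 2 := by
  classical
  have h4 : ∀ p ∈ F, ∀ p' ∈ F, ‖w p‖ * ‖w p'‖ * B p p' ≤
      (if p = p' then D * ‖w p‖ ^ 2 else 0) + O * (‖w p‖ * ‖w p'‖) := by
    intro p hp p' hp'
    by_cases hpp : p = p'
    · subst hpp
      rw [if_pos rfl]
      have h6 : ‖w p‖ * ‖w p‖ * B p p ≤ ‖w p‖ * ‖w p‖ * D :=
        mul_le_mul_of_nonneg_left (hd p hp) (by positivity)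
      have h7 : 0 ≤ O * (‖w p‖ * ‖w p‖) := by positivity
      have h8 : D * ‖w p‖ ^ 2 = ‖w p‖ * ‖w p‖ * D := by ring
      linarith
    · rw [if_neg hpp, zero_add, mul_comm O]
      exact mul_le_mul_of_nonneg_left (ho p hp p' hp' hpp) (by positivity)
  refine (Finset.sum_le_sum fun p hp => Finset.sum_le_sum fun p' hp' => h4 p hp p' hp').trans ?_
  refine le_of_eq ?_
  simp_rw [Finset.sum_add_distrib]
  congr 1
  · rw [Finset.mul_sum]
    refine Finset.sum_congr rfl fun p hp => ?_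
    rw [Finset.sum_ite_eq, if_pos hp]
  · rw [sq, Finset.sum_mul_sum, Finset.mul_sum]
    refine Finset.sum_congr rfl fun p _ => ?_
    rw [Finset.mul_sum]

theorem OP (h1 : S_L1) (hk : S_KER) (hc : S_COR) (h2 : S_CC1) (h3 : S_CC2) : S_OP := by
  intro η A ε hη hε
  set e : ℝ := min η (ε / 3) with he
  have he0 : 0 < e := lt_min hη (by positivity)
  have heη : e ≤ η := min_le_left _ _
  have heε : e ≤ ε / 3 := min_le_right _ _
  obtain ⟨n0, hn0⟩ := exists_nat_ge ((|A| + 3) / e)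
  set R : ℕ := n0 + 2 with hR
  have hAR : |A| + 3 ≤ e * R := by
    rw [div_le_iff₀ he0] at hn0
    rw [hR]
    push_cast
    have : 0 < e * 2 := by positivity
    have h4 : e * ((n0 : ℝ) + 2) = n0 * e + e * 2 := by ring
    rw [h4]
    linarith
  obtain ⟨E, hE, hErr⟩ := err h1 R (by omega)
  obtain ⟨Cd, hCd, hDiag⟩ := diag hc h3 R
  obtain ⟨Co, hCo, hOff⟩ := off hc h2 R
  obtain ⟨Cv, hCv, hDiv⟩ := Pool.Agent.H510R2.divisor_bound (ε / 3) (by positivity)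
  set K1 : ℝ := 1 + 4 * |A| / (ε / 6) with hK1
  have hK10 : 0 < K1 := by rw [hK1]; positivity
  set K2 : ℝ := 1 + 2 / (ε / 3) with hK2
  have hK20 : 0 < K2 := by rw [hK2]; positivity
  set c1 : ℝ := Cd * K1 ^ 2 * (3 + Cv) with hc1
  set c2 : ℝ := Co * K1 ^ 2 * K2 * 2 with hc2
  have hc10 : 0 < c1 := by rw [hc1]; positivity
  have hc20 : 0 < c2 := by rw [hc2]; positivity
  refine ⟨2 * Real.exp 1 * (c1 + c2) + 2 * E ^ 2, 2, by positivity, ?_⟩
  intro X H Y hX2 hXH hHA hY hYH F hF hinj w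
  rcases F.eq_empty_or_nonempty with rfl | hFne
  · simp
  have hX : (2 : ℝ) ≤ X := by exact_mod_cast hX2
  have hX1 : (1 : ℝ) ≤ X := by linarith
  have hX0 : (0 : ℝ) < X := by linarith
  have hXXH : (X : ℝ) ≤ H := by
    refine le_trans ?_ hXH
    calc (X : ℝ) = (X : ℝ) ^ (1 : ℝ) := (Real.rpow_one _).symm
      _ ≤ (X : ℝ) ^ (1 + η) := Real.rpow_le_rpow_of_exponent_le hX1 (by linarith)
  have hH2 : 2 ≤ H := by linarith
  have hH0 : 0 < H := by linarith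
  have hY0 : (0 : ℝ) < Y := by exact_mod_cast hY
  have hXe1 : 1 ≤ (X : ℝ) ^ e := Real.one_le_rpow hX1 he0.le
  have hXε : 1 ≤ (X : ℝ) ^ ε := Real.one_le_rpow hX1 hε.le
  -- the length of the smoothed sum
  set Z : ℕ := ⌈H ^ 3⌉₊ with hZ
  have hZ1 : H ^ 3 ≤ Z := Nat.le_ceil _
  have hH3 : H ≤ H ^ 3 := (num_z hH2).1
  have hYZ : Y ≤ Z := by
    have : (Y : ℝ) ≤ Z := hYH.trans (hH3.trans hZ1)
    exact_mod_cast this
  have hZ2 : (Z : ℝ) ≤ H ^ 4 := by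
    have h4 : (Z : ℝ) < H ^ 3 + 1 := Nat.ceil_lt_add_one (by positivity)
    exact h4.le.trans (num_z hH2).2
  have hZ0 : (0 : ℝ) < Z := by
    have : 0 < H ^ 3 := by positivity
    linarith
  have hlogZ : 1 + Real.log Z ≤ K1 * (X : ℝ) ^ (ε / 6) := by
    have h4 : Real.log Z ≤ 4 * Real.log H := by
      have := Real.log_le_log hZ0 hZ2
      rw [Real.log_pow] at this
      exact_mod_cast this
    have h5 : Real.log H ≤ |A| * Real.log X := by
      have h6 := Real.log_le_log hH0 hHA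
      rw [Real.log_rpow hX0] at h6
      have h7 : 0 ≤ Real.log X := Real.log_nonneg hX1
      have h8 := mul_le_mul_of_nonneg_right (le_abs_self A) h7
      linarith
    have h6 := log_pow_bd (δ := ε / 6) (B := 4 * |A|) (by positivity) (by positivity) hX1
    rw [hK1]
    linarith
  have hlogZ0 : 0 ≤ 1 + Real.log Z := by
    have : 0 ≤ Real.log Z := Real.log_nonneg (by linarith)
    linarith
  have hlog2 : (1 + Real.log Z) ^ 2 ≤ K1 ^ 2 * (X : ℝ) ^ (ε / 3) := by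
    calc (1 + Real.log Z) ^ 2 ≤ (K1 * (X : ℝ) ^ (ε / 6)) ^ 2 := pow_le_pow_left₀ hlogZ0 hlogZ 2
      _ = K1 ^ 2 * (X : ℝ) ^ (ε / 3) := by
        rw [mul_pow, ← Real.rpow_natCast ((X : ℝ) ^ (ε / 6)), ← Real.rpow_mul hX0.le]
        congr 2
        push_cast
        ring
  have hHY : 1 / H ≤ 1 / (Y : ℝ) := one_div_le_one_div_of_le hY0 hYH
  have hlast : 1 / (Y : ℝ) + 1 / H ≤ 2 / Y := by
    have : (2 : ℝ) / Y = 1 / Y + 1 / Y := by ring
    linarith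
  -- the cut offs
  set N : DC → ℝ := fun p => p.1 * H * (X : ℝ) ^ e with hN
  have hq : ∀ p ∈ F, (1 : ℝ) ≤ p.1 ∧ (p.1 : ℝ) ≤ X := by
    intro p hp
    obtain ⟨a1, a2, _, _⟩ := hF p hp
    exact ⟨by exact_mod_cast Nat.one_le_iff_ne_zero.2 a1, by exact_mod_cast a2⟩
  have hqe : ∀ p ∈ F, (p.1 : ℝ) * (X : ℝ) ^ e ≤ H := by
    intro p hp
    obtain ⟨a1, a2⟩ := hq p hp
    refine le_trans ?_ hXH
    rw [Real.rpow_add hX0, Real.rpow_one]
    have : (X : ℝ) ^ e ≤ (X : ℝ) ^ η := Real.rpow_le_rpow_of_exponent_le hX1 heη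
    gcongr
  have hN1 : ∀ p ∈ F, H ≤ N p ∧ N p ≤ H ^ 2 := by
    intro p hp
    obtain ⟨a1, a2⟩ := hq p hp
    constructor
    · rw [hN]
      simp only
      have h4 : H ≤ p.1 * H := le_mul_of_one_le_left hH0.le a1
      exact h4.trans (le_mul_of_one_le_right (by positivity) hXe1)
    · have : N p = (p.1 * (X : ℝ) ^ e) * H := by rw [hN]; ring
      rw [this, sq]
      exact mul_le_mul_of_nonneg_right (hqe p hp) hH0.le
  -- the bilinear forms
  set D : ℝ := c1 * (X : ℝ) ^ ε * (1 + X / Y) with hD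
  set O : ℝ := c2 * (X : ℝ) ^ ε * (X / Y) with hO
  have hO0 : 0 ≤ O := by rw [hO]; positivity
  have hD0 : 0 ≤ D := by rw [hD]; positivity
  have hBd : ∀ p ∈ F, ‖BB R H (N p) (N p) Y Z p p‖ ≤ D := by
    intro p hp
    obtain ⟨a1, a2, a3, _⟩ := hF p hp
    obtain ⟨b1, b2⟩ := hq p hp
    obtain ⟨n1, n2⟩ := hN1 p hp
    refine (hDiag H (N p) Y Z p hY hYZ hH2 n1 n2 a1 a3).trans ?_
    have hq0 : (0 : ℝ) < p.1 := by linarith
    have h4 : ((p.1.divisors.card : ℝ) / p.1) * N p / H = p.1.divisors.card * (X : ℝ) ^ e := by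
      rw [hN]
      field_simp
    have h5 : (p.1.divisors.card : ℝ) ≤ Cv * (X : ℝ) ^ (ε / 3) := by
      refine (hDiv p.1 (by exact_mod_cast b1)).trans ?_
      have : (p.1 : ℝ) ^ (ε / 3) ≤ (X : ℝ) ^ (ε / 3) :=
        Real.rpow_le_rpow (by linarith) b2 (by positivity)
      gcongr
    have h6 : (X : ℝ) ^ e ≤ (X : ℝ) ^ (ε / 3) := Real.rpow_le_rpow_of_exponent_le hX1 heε
    have h7 : (1 : ℝ) ≤ (X : ℝ) ^ (ε / 3) := Real.one_le_rpow hX1 (by positivity)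
    set x : ℝ := (X : ℝ) ^ (ε / 3) with hx
    have hx3 : (X : ℝ) ^ ε = x ^ 3 := pow_three hX0
    have h8 : (p.1 : ℝ) * (1 / Y + 1 / H) ≤ 2 * (X / Y) := by
      calc (p.1 : ℝ) * (1 / Y + 1 / H) ≤ X * (2 / Y) := by gcongr
        _ = _ := by ring
    rw [h4]
    have hXY : 0 ≤ (X : ℝ) / Y := by positivity
    have h10 : (p.1.divisors.card : ℝ) * (X : ℝ) ^ e ≤ Cv * x * x :=
      mul_le_mul h5 h6 (by positivity) (by positivity)
    have h9 : 1 + (p.1.divisors.card : ℝ) * (X : ℝ) ^ e + p.1 * (1 / Y + 1 / H) ≤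
        (3 + Cv) * x ^ 2 * (1 + X / Y) := num_d h7 hCv hXY h10 h8
    calc Cd * (1 + Real.log Z) ^ 2 * (1 + (p.1.divisors.card : ℝ) * (X : ℝ) ^ e +
          p.1 * (1 / Y + 1 / H)) ≤ Cd * (K1 ^ 2 * x) * ((3 + Cv) * x ^ 2 * (1 + X / Y)) := by
          refine mul_le_mul (mul_le_mul_of_nonneg_left hlog2 hCd.le) h9 (by positivity)
            (by positivity)
      _ = D := by
          rw [hD, hc1, hx3]
          ring
  have hBo : ∀ p ∈ F, ∀ p' ∈ F, p ≠ p' → ‖BB R H (N p) (N p') Y Z p p'‖ ≤ O := by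
    intro p hp p' hp' hne
    obtain ⟨a1, a2, a3, _⟩ := hF p hp
    obtain ⟨a1', a2', a3', _⟩ := hF p' hp'
    obtain ⟨b1, b2⟩ := hq p hp
    obtain ⟨b1', b2'⟩ := hq p' hp'
    obtain ⟨n1, n2⟩ := hN1 p hp
    obtain ⟨n1', n2'⟩ := hN1 p' hp'
    refine (hOff X H (N p) (N p') Y Z p p' hY hYZ hH2 n1 n2 n1' n2' hX1 a1 a1' b2 b2' a3 a3'
      (fun h => hne (hinj p hp p' hp' h))).trans ?_
    have h4 := log_pow_bd (δ := ε / 3) (B := 2) (by positivity) (by norm_num) hX1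
    have h7 : (1 : ℝ) ≤ (X : ℝ) ^ (ε / 3) := Real.one_le_rpow hX1 (by positivity)
    set x : ℝ := (X : ℝ) ^ (ε / 3) with hx
    have hx3 : (X : ℝ) ^ ε = x ^ 3 := pow_three hX0
    have hlX : 0 ≤ Real.log X := Real.log_nonneg hX1
    have h9 : (X : ℝ) * (1 + 2 * Real.log X) * (1 / Y + 1 / H) ≤ X * (K2 * x) * (2 / Y) := by
      have h10 : (0 : ℝ) ≤ 1 / Y + 1 / H := by positivity
      gcongr
    calc Co * (1 + Real.log Z) ^ 2 * (X * (1 + 2 * Real.log X) * (1 / Y + 1 / H))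
        ≤ Co * (K1 ^ 2 * x) * (X * (K2 * x) * (2 / Y)) := by
          refine mul_le_mul (mul_le_mul_of_nonneg_left hlog2 hCo.le) h9 (by positivity)
            (by positivity)
      _ = c2 * x ^ 2 * (X / Y) := by
          rw [hc2]
          ring
      _ ≤ c2 * x ^ 3 * (X / Y) := by
          have : x ^ 2 ≤ x ^ 3 := pow_le_pow_right₀ h7 (by norm_num)
          gcongr
      _ = O := by rw [hO, hx3]
  -- the sums of the coefficients
  set s1 : ℝ := ∑ p ∈ F, ‖w p‖ with hs1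
  set s2 : ℝ := ∑ p ∈ F, ‖w p‖ ^ 2 with hs2
  have hs20 : 0 ≤ s2 := Finset.sum_nonneg fun p _ => by positivity
  have hs10 : 0 ≤ s1 := Finset.sum_nonneg fun p _ => norm_nonneg _
  have hCS : s1 ^ 2 ≤ F.card * s2 := sq_sum_le_card_mul_sum_sq
  have hcard : (F.card : ℝ) ≤ X := by
    have h4 : F.card ≤ (Finset.Icc 1 X).card := by
      refine Finset.card_le_card_of_injOn (fun p => p.1) (fun p hp => ?_) (fun p hp p' hp' h => ?_)
      · obtain ⟨a1, a2, _, _⟩ := hF p hp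
        exact Finset.mem_coe.2 (Finset.mem_Icc.2 ⟨Nat.one_le_iff_ne_zero.2 a1, a2⟩)
      · exact hinj p hp p' hp' h
    rw [Nat.card_Icc, Nat.add_sub_cancel] at h4
    exact_mod_cast h4
  have hcard1 : (1 : ℝ) ≤ F.card := by exact_mod_cast hFne.card_pos
  -- the main part
  have hT : ∫ u in (0:ℝ)..H, ‖∑ p ∈ F, w p * TT R (N p) Y Z p u‖ ^ 2 ≤
      Real.exp 1 * (H * (D * s2 + O * s1 ^ 2)) := by
    refine (mainT hk hH0 R Y Z F w N).trans ?_
    refine mul_le_mul_of_nonneg_left (mul_le_mul_of_nonneg_left ?_ hH0.le) (Real.exp_pos 1).le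
    exact dsum F w (fun p p' => ‖BB R H (N p) (N p') Y Z p p'‖) D O hO0 hBd hBo
  -- pointwise
  have hpt : ∀ u ∈ Icc (0 : ℝ) H, ‖∑ p ∈ F, w p * (LL p (1 / 2 + I * (u : ℂ)) - PY Y p u)‖ ^ 2 ≤
      2 * ‖∑ p ∈ F, w p * TT R (N p) Y Z p u‖ ^ 2 + 2 * (s1 * (E / X)) ^ 2 := by
    intro u hu
    have h4 : ∑ p ∈ F, w p * (LL p (1 / 2 + I * (u : ℂ)) - PY Y p u) =
        ∑ p ∈ F, w p * TT R (N p) Y Z p u +
          ∑ p ∈ F, w p * (LL p (1 / 2 + I * (u : ℂ)) - PY Y p u - TT R (N p) Y Z p u) := by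
      rw [← Finset.sum_add_distrib]
      refine Finset.sum_congr rfl fun p _ => ?_
      ring
    have h5 : ‖∑ p ∈ F, w p * (LL p (1 / 2 + I * (u : ℂ)) - PY Y p u - TT R (N p) Y Z p u)‖ ≤
        s1 * (E / X) := by
      rw [hs1, Finset.sum_mul]
      refine norm_sum_le_of_le _ fun p hp => ?_
      obtain ⟨a1, a2, a3, a4⟩ := hF p hp
      rw [norm_mul]
      refine mul_le_mul_of_nonneg_left ?_ (norm_nonneg _)
      exact hErr A e X H Y Z p u he0 hAR hX hXXH hHA hY hYH hZ1 hYZ a1 a4 (hqe p hp) hu.1 hu.2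
    rw [h4]
    have h6 := norm_add_le (∑ p ∈ F, w p * TT R (N p) Y Z p u)
      (∑ p ∈ F, w p * (LL p (1 / 2 + I * (u : ℂ)) - PY Y p u - TT R (N p) Y Z p u))
    exact (pow_le_pow_left₀ (norm_nonneg _) (h6.trans (add_le_add le_rfl h5)) 2).trans
      (two_sq _ _)
  have hLc : Continuous fun u : ℝ =>
      ∑ p ∈ F, w p * (LL p (1 / 2 + I * (u : ℂ)) - PY Y p u) := by
    refine continuous_finsetSum _ fun p hp => ?_
    obtain ⟨a1, a2, a3, a4⟩ := hF p hp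
    exact continuous_const.mul ((LL_cont a1 a4).sub (PY_cont Y p))
  have hTc : Continuous fun u : ℝ => ∑ p ∈ F, w p * TT R (N p) Y Z p u :=
    continuous_finsetSum _ fun p _ => continuous_const.mul (TT_cont R (N p) Y Z p)
  have hmono : ∫ u in (0:ℝ)..H, ‖∑ p ∈ F, w p * (LL p (1 / 2 + I * (u : ℂ)) - PY Y p u)‖ ^ 2 ≤
      ∫ u in (0:ℝ)..H, (2 * ‖∑ p ∈ F, w p * TT R (N p) Y Z p u‖ ^ 2 +
        2 * (s1 * (E / X)) ^ 2) := by
    refine intervalIntegral.integral_mono_on hH0.le ?_ ?_ hpt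
    · exact (hLc.norm.pow 2).intervalIntegrable _ _
    · exact ((continuous_const.mul (hTc.norm.pow 2)).add continuous_const).intervalIntegrable _ _
  refine hmono.trans ?_
  have i1 : IntervalIntegrable (fun u : ℝ => 2 * ‖∑ p ∈ F, w p * TT R (N p) Y Z p u‖ ^ 2)
      volume 0 H := (continuous_const.mul (hTc.norm.pow 2)).intervalIntegrable _ _
  have i2 : IntervalIntegrable (fun _ : ℝ => 2 * (s1 * (E / X)) ^ 2) volume 0 H :=
    continuous_const.intervalIntegrable _ _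
  rw [intervalIntegral.integral_add i1 i2, intervalIntegral.integral_const_mul,
    intervalIntegral.integral_const, sub_zero, smul_eq_mul]
  -- the final computation
  have hXY : 0 ≤ (X : ℝ) / Y := by positivity
  set Φ : ℝ := (X : ℝ) ^ ε * (1 + F.card * X / Y) with hΦ
  have hfx : (X : ℝ) / Y ≤ F.card * X / Y := by
    rw [mul_div_assoc]
    exact le_mul_of_one_le_left hXY hcard1
  have hΦ1 : 1 ≤ Φ := one_le_mul_of_one_le_of_one_le hXε (by linarith)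
  have hDΦ : D ≤ c1 * Φ := by
    rw [hD, hΦ, mul_assoc]
    refine mul_le_mul_of_nonneg_left (mul_le_mul_of_nonneg_left ?_ (by positivity)) hc10.le
    linarith
  have hOΦ : O * F.card ≤ c2 * Φ := by
    rw [hO, hΦ]
    have : c2 * (X : ℝ) ^ ε * (X / Y) * F.card = c2 * ((X : ℝ) ^ ε * (F.card * X / Y)) := by ring
    rw [this]
    refine mul_le_mul_of_nonneg_left (mul_le_mul_of_nonneg_left ?_ (by positivity)) hc20.le
    linarith
  have hgoal : (2 * Real.exp 1 * (c1 + c2) + 2 * E ^ 2) * (X : ℝ) ^ ε *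
      (1 + F.card * X / Y) * H * s2 =
      (2 * Real.exp 1 * (c1 + c2) + 2 * E ^ 2) * Φ * H * s2 := by
    rw [hΦ]
    ring
  rw [hgoal]
  exact num_f hO0 hs20 hH0 hX1 hCS hcard hΦ1 hDΦ hOΦ hT

end

end Pool.Agent.Y975.QF
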