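import Pool.Agent.Y975.QF.Op

/-!
Project QF, job QF-OP: the second moments `S_WIN`.
-/

set_option autoImplicit false

namespace Pool.Agent.Y975.QF

open MeasureTheory Set Filter Complex Topology
open Pool.Agent.Y752.QF

noncomputable section

lemma pow_exp0 {n : ℕ} (hn : 1 ≤ n) (u : ℝ) : (n : ℂ) ^ (-(I * (u : ℂ))) =
    Complex.exp (-(I * u * (Real.log n : ℝ))) := by
  have hn0 : (n : ℂ) ≠ 0 := by
    have : n ≠ 0 := by omega
    exact_mod_cast this
  rw [Complex.cpow_def_of_ne_zero hn0, ← Complex.natCast_log]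
  congr 1
  ring

lemma harm (Y : ℕ) : ∑ n ∈ Finset.Icc 1 Y, (1 : ℝ) / n ≤ 1 + Real.log Y := by
  have h1 := harmonic_le_one_add_log Y
  rw [harmonic_eq_sum_Icc] at h1
  push_cast at h1
  simpa [one_div] using h1

theorem WIN (hOP : S_OP) : S_WIN := by
  intro η A ε hη hε
  obtain ⟨C, X0, hC, hO⟩ := hOP η A ε hη hε
  obtain ⟨Cm, hCm, hMV⟩ := Pool.Agent.TH928.GS.t_MV
  set K : ℝ := 1 + |A| / ε with hK
  have hK0 : 0 < K := by rw [hK]; positivity
  refine ⟨4 * C + 4 * (Cm * K), max X0 2, by positivity, ?_⟩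
  intro X H Y hXX hXH hHA hXY hYH p hp0 hpX hprim hp1
  have hX2 : 2 ≤ X := (le_max_right _ _).trans hXX
  have hX : (2 : ℝ) ≤ X := by exact_mod_cast hX2
  have hX1 : (1 : ℝ) ≤ X := by linarith
  have hX0 : (0 : ℝ) < X := by linarith
  have hY1 : 1 ≤ Y := by omega
  have hY0 : (0 : ℝ) < Y := by exact_mod_cast hY1
  have hXY' : (X : ℝ) ≤ Y := by exact_mod_cast hXY
  have hH2 : 2 ≤ H := by linarith
  have hH0 : 0 < H := by linarith
  have hXε : 1 ≤ (X : ℝ) ^ ε := Real.one_le_rpow hX1 hε.le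
  -- the difference
  have hdiff : ∫ u in (0:ℝ)..H, ‖LL p (1 / 2 + I * (u : ℂ)) - PY Y p u‖ ^ 2 ≤
      2 * C * (X : ℝ) ^ ε * H := by
    have h := hO X H Y ((le_max_left _ _).trans hXX) hXH hHA hY1 hYH {p}
      (fun p' hp' => by
        rw [Finset.mem_singleton] at hp'
        subst hp'
        exact ⟨hp0, hpX, hprim, hp1⟩)
      (fun a ha b hb _ => by
        rw [Finset.mem_singleton] at ha hb
        rw [ha, hb]) (fun _ => 1)
    simp only [Finset.sum_singleton, one_mul, Finset.card_singleton, Nat.cast_one, norm_one,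
      one_pow, mul_one] at h
    refine h.trans ?_
    have h4 : (X : ℝ) / Y ≤ 1 := by
      rw [div_le_one hY0]
      exact hXY'
    calc C * (X : ℝ) ^ ε * (1 + X / Y) * H ≤ C * (X : ℝ) ^ ε * (1 + 1) * H := by gcongr
      _ = _ := by ring
  -- the polynomial
  have hpoly : ∫ u in (0:ℝ)..H, ‖PY Y p u‖ ^ 2 ≤ 2 * (Cm * K) * (X : ℝ) ^ ε * H := by
    set a : ℕ → ℂ := fun n => cv p n * (((√(n : ℝ))⁻¹ : ℝ) : ℂ) with ha
    have h4 := hMV H Y a (by linarith) (by nlinarith)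
    have h5 : ∀ u : ℝ, PY Y p u = ∑ n ∈ Finset.Icc 1 Y, a n * (n : ℂ) ^ (-(I * (u : ℂ))) := by
      intro u
      unfold PY
      refine Finset.sum_congr rfl fun n hn => ?_
      have hn1 : 1 ≤ n := (Finset.mem_Icc.1 hn).1
      rw [pow_exp hn1, pow_exp0 hn1, ha]
      ring
    have h6 : ∫ u in (0:ℝ)..H, ‖PY Y p u‖ ^ 2 ≤ ∫ u in (0:ℝ)..(2 * H), ‖PY Y p u‖ ^ 2 := by
      refine intervalIntegral.integral_mono_interval le_rfl hH0.le (by linarith) ?_ ?_
      · exact Eventually.of_forall fun u => by positivity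
      · exact ((PY_cont Y p).norm.pow 2).intervalIntegrable _ _
    refine h6.trans ?_
    simp_rw [h5]
    refine h4.trans ?_
    have h7 : ∑ n ∈ Finset.Icc 1 Y, (H + n) * ‖a n‖ ^ 2 ≤
        ∑ n ∈ Finset.Icc 1 Y, (H * (1 / (n : ℝ)) + 1) := by
      refine Finset.sum_le_sum fun n hn => ?_
      have hn1 : (0 : ℝ) < n := by exact_mod_cast (Finset.mem_Icc.1 hn).1
      have h8 : ‖a n‖ ^ 2 ≤ 1 / n := by
        rw [ha]
        simp only
        rw [norm_mul, mul_pow, Complex.norm_real, Real.norm_eq_abs,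
          abs_of_nonneg (by positivity), inv_pow, Real.sq_sqrt hn1.le]
        have h9 : ‖cv p n‖ ^ 2 ≤ 1 := pow_le_one₀ (norm_nonneg _) (cv_norm p n)
        calc ‖cv p n‖ ^ 2 * (n : ℝ)⁻¹ ≤ 1 * (n : ℝ)⁻¹ := by gcongr
          _ = 1 / n := by ring
      calc (H + n) * ‖a n‖ ^ 2 ≤ (H + n) * (1 / n) := by gcongr
        _ = H * (1 / (n : ℝ)) + 1 := by field_simp
    have h8 : ∑ n ∈ Finset.Icc 1 Y, (H * (1 / (n : ℝ)) + 1) ≤ 2 * K * (X : ℝ) ^ ε * H := by
      rw [Finset.sum_add_distrib, ← Finset.mul_sum, Finset.sum_const, Nat.card_Icc,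
        Nat.add_sub_cancel, nsmul_eq_mul, mul_one]
      have h9 := harm Y
      have h10 : Real.log Y ≤ |A| * Real.log X := by
        have h11 : (Y : ℝ) ≤ (X : ℝ) ^ A := hYH.trans hHA
        have h12 := Real.log_le_log hY0 h11
        rw [Real.log_rpow hX0] at h12
        have h13 : 0 ≤ Real.log X := Real.log_nonneg hX1
        have h14 := mul_le_mul_of_nonneg_right (le_abs_self A) h13
        linarith
      have h11 := log_pow_bd (δ := ε) (B := |A|) hε (abs_nonneg _) hX1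
      have h12 : 1 + Real.log Y ≤ K * (X : ℝ) ^ ε := by rw [hK]; linarith
      have h13 : 0 ≤ Real.log Y := Real.log_nonneg (by exact_mod_cast hY1)
      calc H * ∑ n ∈ Finset.Icc 1 Y, 1 / (n : ℝ) + Y ≤ H * (1 + Real.log Y) + H := by gcongr
        _ ≤ H * (1 + Real.log Y) + H * (1 + Real.log Y) := by nlinarith
        _ ≤ H * (K * (X : ℝ) ^ ε) + H * (K * (X : ℝ) ^ ε) := by gcongr
        _ = _ := by ring
    calc Cm * ∑ n ∈ Finset.Icc 1 Y, (H + n) * ‖a n‖ ^ 2 ≤ Cm * (2 * K * (X : ℝ) ^ ε * H) :=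
          mul_le_mul_of_nonneg_left (h7.trans h8) hCm.le
      _ = _ := by ring
  have hpos : 0 ≤ C * (X : ℝ) ^ ε * H := by positivity
  have hpos2 : 0 ≤ Cm * K * (X : ℝ) ^ ε * H := by positivity
  refine ⟨?_, hpoly.trans (by nlinarith)⟩
  have hLc := LL_cont hp0 hp1
  have hPc := PY_cont Y p
  have hmono : ∫ u in (0:ℝ)..H, ‖LL p (1 / 2 + I * (u : ℂ))‖ ^ 2 ≤
      ∫ u in (0:ℝ)..H, (2 * ‖LL p (1 / 2 + I * (u : ℂ)) - PY Y p u‖ ^ 2 +
        2 * ‖PY Y p u‖ ^ 2) := by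
    refine intervalIntegral.integral_mono_on hH0.le ((hLc.norm.pow 2).intervalIntegrable _ _)
      (((continuous_const.mul ((hLc.sub hPc).norm.pow 2)).add
        (continuous_const.mul (hPc.norm.pow 2))).intervalIntegrable _ _) fun u _ => ?_
    have h4 := norm_add_le (LL p (1 / 2 + I * (u : ℂ)) - PY Y p u) (PY Y p u)
    rw [sub_add_cancel] at h4
    set x := ‖LL p (1 / 2 + I * (u : ℂ)) - PY Y p u‖
    set y := ‖PY Y p u‖
    refine (pow_le_pow_left₀ (norm_nonneg _) h4 2).trans ?_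
    nlinarith [sq_nonneg (x - y)]
  refine hmono.trans ?_
  have i1 : IntervalIntegrable (fun u : ℝ => 2 * ‖LL p (1 / 2 + I * (u : ℂ)) - PY Y p u‖ ^ 2)
      volume 0 H := (continuous_const.mul ((hLc.sub hPc).norm.pow 2)).intervalIntegrable _ _
  have i2 : IntervalIntegrable (fun u : ℝ => 2 * ‖PY Y p u‖ ^ 2) volume 0 H :=
    (continuous_const.mul (hPc.norm.pow 2)).intervalIntegrable _ _
  rw [intervalIntegral.integral_add i1 i2,
    intervalIntegral.integral_const_mul, intervalIntegral.integral_const_mul]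
  calc 2 * (∫ u in (0:ℝ)..H, ‖LL p (1 / 2 + I * (u : ℂ)) - PY Y p u‖ ^ 2) +
        2 * ∫ u in (0:ℝ)..H, ‖PY Y p u‖ ^ 2 ≤ 2 * (2 * C * (X : ℝ) ^ ε * H) +
        2 * (2 * (Cm * K) * (X : ℝ) ^ ε * H) := by gcongr
    _ = _ := by ring

end

end Pool.Agent.Y975.QF
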