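import Pool.Agent.Y752.QF.Stm

/-!
Project QF, job QF-OP, part 1: the smoothing function, and the quadratic form from `S_KER`.
-/

set_option autoImplicit false

namespace Pool.Agent.Y975.QF

open MeasureTheory Set Filter Complex Topology
open Pool.Agent.Y752.QF

noncomputable section

/-! ### the smoothing -/

lemma exp_bd {x : ℝ} (hx : 0 ≤ x) : 0 ≤ 1 - Real.exp (-x) ∧ 1 - Real.exp (-x) ≤ 1 ∧
    1 - Real.exp (-x) ≤ x := by
  have h1 : Real.exp (-x) ≤ 1 := Real.exp_le_one_iff.2 (by linarith)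
  have h2 := Real.exp_pos (-x)
  have h3 := Real.add_one_le_exp (-x)
  exact ⟨by linarith, by linarith, by linarith⟩

lemma cut_nonneg (R : ℕ) {x : ℝ} (hx : 0 ≤ x) : 0 ≤ cut R x := by
  obtain ⟨h1, h2, _⟩ := exp_bd hx
  have := pow_le_one₀ (n := R + 1) h1 h2
  unfold cut
  linarith

lemma cut_le_one (R : ℕ) {x : ℝ} (hx : 0 ≤ x) : cut R x ≤ 1 := by
  obtain ⟨h1, _, _⟩ := exp_bd hx
  have := pow_nonneg h1 (R + 1)
  unfold cut
  linarith

lemma cut_anti (R : ℕ) {x y : ℝ} (hx : 0 ≤ x) (hxy : x ≤ y) : cut R y ≤ cut R x := by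
  obtain ⟨h1, _, _⟩ := exp_bd hx
  have h2 : Real.exp (-y) ≤ Real.exp (-x) := Real.exp_le_exp.2 (by linarith)
  have := pow_le_pow_left₀ h1 (by linarith : 1 - Real.exp (-x) ≤ 1 - Real.exp (-y)) (R + 1)
  unfold cut
  linarith

lemma cut_exp (R : ℕ) {x : ℝ} (hx : 0 ≤ x) : cut R x ≤ (R + 1) * Real.exp (-x) := by
  obtain ⟨h1, _, _⟩ := exp_bd hx
  have h2 : (-2 : ℝ) ≤ -Real.exp (-x) := by
    have : Real.exp (-x) ≤ 1 := Real.exp_le_one_iff.2 (by linarith)
    linarith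
  have h3 := one_add_mul_le_pow h2 (R + 1)
  unfold cut
  push_cast at h3
  have e : (1 : ℝ) + -Real.exp (-x) = 1 - Real.exp (-x) := by ring
  rw [e] at h3
  linarith

lemma cut_cube (R : ℕ) {x : ℝ} (hx : 0 < x) : cut R x ≤ 6 * (R + 1) * (x⁻¹) ^ 3 := by
  have h1 := cut_exp R hx.le
  have h2 := Real.pow_div_factorial_le_exp x hx.le 3
  have h3 : ((3 : ℕ).factorial : ℝ) = 6 := by norm_num [Nat.factorial]
  rw [h3] at h2
  have h4 : Real.exp (-x) ≤ 6 * (x⁻¹) ^ 3 := by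
    rw [Real.exp_neg, inv_pow, ← div_eq_mul_inv, inv_eq_one_div, div_le_div_iff₀ (Real.exp_pos x)
      (by positivity)]
    linarith
  calc cut R x ≤ (R + 1) * Real.exp (-x) := h1
    _ ≤ (R + 1) * (6 * (x⁻¹) ^ 3) := mul_le_mul_of_nonneg_left h4 (by positivity)
    _ = _ := by ring

lemma cut_one (R : ℕ) {x : ℝ} (hx : 0 ≤ x) : 1 - cut R x ≤ x ^ (R + 1) := by
  obtain ⟨h1, _, h3⟩ := exp_bd hx
  have := pow_le_pow_left₀ h1 h3 (R + 1)
  unfold cut
  linarith

/-! ### the quadratic form -/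

lemma exp_integrable (hK : S_KER) {H : ℝ} (hH : 0 < H) :
    Integrable (fun u : ℝ => Real.exp (-(|u| / H))) := by
  have h := hK H 0 hH
  have e1 : (fun u : ℝ => (Real.exp (-(|u| / H)) : ℂ) *
      Complex.exp (-(I * u * ((0 : ℝ) : ℂ)))) = fun u : ℝ => ((Real.exp (-(|u| / H)) : ℝ) : ℂ) := by
    funext u
    simp
  rw [e1] at h
  by_contra hcon
  have h2 : ¬ Integrable (fun u : ℝ => ((Real.exp (-(|u| / H)) : ℝ) : ℂ)) := by
    intro h3
    apply hcon
    simpa only [RCLike.re_to_complex, Complex.ofReal_re] using h3.re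
  rw [integral_undef h2] at h
  have h3 : (H * ker H 0 : ℝ) = 2 * H := by
    unfold Pool.Agent.Y752.QF.ker
    ring_nf
  rw [h3] at h
  have : (2 * H : ℝ) = 0 := by exact_mod_cast h.symm
  linarith

lemma quad (hK : S_KER) {H : ℝ} (hH : 0 < H) {ι : Type} (J : Finset ι) (c : ι → ℂ) (lam : ι → ℝ) :
    ∫ u in (0:ℝ)..H, ‖∑ x ∈ J, c x * Complex.exp (-(I * u * lam x))‖ ^ 2 ≤
      Real.exp 1 * (H * ‖∑ x ∈ J, ∑ y ∈ J, c x * (starRingEnd ℂ) (c y) *
        (ker H (lam x - lam y) : ℂ)‖) := by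
  have hexp := exp_integrable hK hH
  set S : ℝ → ℂ := fun u => ∑ x ∈ J, c x * Complex.exp (-(I * u * lam x)) with hS
  have hSc : Continuous S := by
    rw [hS]
    fun_prop
  -- expansion of the square
  have hsq : ∀ u : ℝ, ((‖S u‖ ^ 2 : ℝ) : ℂ) = ∑ x ∈ J, ∑ y ∈ J, c x * (starRingEnd ℂ) (c y) *
      Complex.exp (-(I * u * ((lam x - lam y : ℝ) : ℂ))) := by
    intro u
    have h1 : ((‖S u‖ ^ 2 : ℝ) : ℂ) = S u * (starRingEnd ℂ) (S u) := by
      rw [Complex.mul_conj, Complex.normSq_eq_norm_sq]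
    rw [h1, hS]
    simp only [map_sum]
    rw [Finset.sum_mul_sum]
    refine Finset.sum_congr rfl fun x _ => Finset.sum_congr rfl fun y _ => ?_
    rw [map_mul, ← Complex.exp_conj]
    have h2 : (starRingEnd ℂ) (-(I * u * lam y)) = I * u * lam y := by
      simp only [map_neg, map_mul, Complex.conj_I, Complex.conj_ofReal]
      ring
    rw [h2]
    have h3 : Complex.exp (-(I * u * ((lam x - lam y : ℝ) : ℂ))) =
        Complex.exp (-(I * u * lam x)) * Complex.exp (I * u * lam y) := by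
      rw [← Complex.exp_add]
      congr 1
      push_cast
      ring
    rw [h3]
    ring
  have hterm : ∀ y : ℝ, Integrable (fun u : ℝ => (Real.exp (-(|u| / H)) : ℂ) *
      Complex.exp (-(I * u * (y : ℂ)))) := by
    intro y
    refine Integrable.mono' hexp ?_ (Eventually.of_forall fun u => ?_)
    · have : Continuous fun u : ℝ => (Real.exp (-(|u| / H)) : ℂ) *
          Complex.exp (-(I * u * (y : ℂ))) := by fun_prop
      exact this.aestronglyMeasurable
    · rw [norm_mul, Complex.norm_real, Real.norm_eq_abs, abs_of_pos (Real.exp_pos _),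
        Complex.norm_exp]
      simp
  have hint : ∫ u : ℝ, ((Real.exp (-(|u| / H)) * ‖S u‖ ^ 2 : ℝ) : ℂ) =
      ∑ x ∈ J, ∑ y ∈ J, c x * (starRingEnd ℂ) (c y) * (H * ker H (lam x - lam y) : ℝ) := by
    have e1 : ∀ u : ℝ, ((Real.exp (-(|u| / H)) * ‖S u‖ ^ 2 : ℝ) : ℂ) =
        ∑ x ∈ J, ∑ y ∈ J, c x * (starRingEnd ℂ) (c y) * ((Real.exp (-(|u| / H)) : ℂ) *
          Complex.exp (-(I * u * ((lam x - lam y : ℝ) : ℂ)))) := by
      intro u
      rw [Complex.ofReal_mul, hsq u, Finset.mul_sum]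
      refine Finset.sum_congr rfl fun x _ => ?_
      rw [Finset.mul_sum]
      refine Finset.sum_congr rfl fun y _ => ?_
      ring
    simp_rw [e1]
    rw [integral_finsetSum _ fun x _ => integrable_finsetSum _ fun y _ =>
      (hterm _).const_mul _]
    refine Finset.sum_congr rfl fun x _ => ?_
    rw [integral_finsetSum _ fun y _ => (hterm _).const_mul _]
    refine Finset.sum_congr rfl fun y _ => ?_
    rw [integral_const_mul, hK H _ hH]
  have hSb : ∃ B : ℝ, ∀ u : ℝ, ‖S u‖ ^ 2 ≤ B := by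
    refine ⟨(∑ x ∈ J, ‖c x‖) ^ 2, fun u => ?_⟩
    refine pow_le_pow_left₀ (norm_nonneg _) ?_ 2
    refine (norm_sum_le _ _).trans (Finset.sum_le_sum fun x _ => ?_)
    rw [norm_mul, Complex.norm_exp]
    simp
  obtain ⟨B, hB⟩ := hSb
  have hI : Integrable (fun u : ℝ => Real.exp (-(|u| / H)) * ‖S u‖ ^ 2) := by
    refine Integrable.mono' (hexp.mul_const B) ?_ (Eventually.of_forall fun u => ?_)
    · have : Continuous fun u : ℝ => Real.exp (-(|u| / H)) * ‖S u‖ ^ 2 := by fun_prop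
      exact this.aestronglyMeasurable
    · rw [Real.norm_eq_abs, abs_of_nonneg (by positivity)]
      exact mul_le_mul_of_nonneg_left (hB u) (Real.exp_pos _).le
  have hreal : ∫ u : ℝ, Real.exp (-(|u| / H)) * ‖S u‖ ^ 2 ≤
      H * ‖∑ x ∈ J, ∑ y ∈ J, c x * (starRingEnd ℂ) (c y) * (ker H (lam x - lam y) : ℂ)‖ := by
    have h1 : ((∫ u : ℝ, Real.exp (-(|u| / H)) * ‖S u‖ ^ 2 : ℝ) : ℂ) =
        (H : ℂ) * ∑ x ∈ J, ∑ y ∈ J, c x * (starRingEnd ℂ) (c y) *
          (ker H (lam x - lam y) : ℂ) := by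
      have h0 : ∫ u : ℝ, ((Real.exp (-(|u| / H)) * ‖S u‖ ^ 2 : ℝ) : ℂ) =
          ((∫ u : ℝ, Real.exp (-(|u| / H)) * ‖S u‖ ^ 2 : ℝ) : ℂ) := integral_ofReal
      rw [← h0, hint, Finset.mul_sum]
      refine Finset.sum_congr rfl fun x _ => ?_
      rw [Finset.mul_sum]
      refine Finset.sum_congr rfl fun y _ => ?_
      push_cast
      ring
    have h2 : (∫ u : ℝ, Real.exp (-(|u| / H)) * ‖S u‖ ^ 2) ≤
        ‖((∫ u : ℝ, Real.exp (-(|u| / H)) * ‖S u‖ ^ 2 : ℝ) : ℂ)‖ := by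
      rw [Complex.norm_real]
      exact Real.le_norm_self _
    refine h2.trans ?_
    rw [h1, norm_mul, Complex.norm_real, Real.norm_eq_abs, abs_of_pos hH]
  rw [intervalIntegral.integral_of_le hH.le]
  have h3 : ∫ u in Ioc 0 H, ‖S u‖ ^ 2 ≤ ∫ u in Ioc 0 H, Real.exp 1 *
      (Real.exp (-(|u| / H)) * ‖S u‖ ^ 2) := by
    refine setIntegral_mono_on ?_ ((hI.const_mul _).integrableOn) measurableSet_Ioc fun u hu => ?_
    · have : Continuous fun u : ℝ => ‖S u‖ ^ 2 := by fun_prop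
      exact this.integrableOn_Ioc
    · rw [← mul_assoc, ← Real.exp_add]
      have h4 : |u| / H ≤ 1 := by
        rw [abs_of_pos hu.1, div_le_one hH]
        exact hu.2
      have h5 : 1 ≤ Real.exp (1 + -(|u| / H)) := Real.one_le_exp (by linarith)
      have h6 : 0 ≤ ‖S u‖ ^ 2 := by positivity
      nlinarith
  refine h3.trans ?_
  rw [integral_const_mul]
  refine mul_le_mul_of_nonneg_left ?_ (Real.exp_pos 1).le
  refine le_trans (setIntegral_le_integral hI ?_) hreal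
  exact Eventually.of_forall fun u => by positivity

end

end Pool.Agent.Y975.QF
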