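import Pool.Agent.Y975.QF.Op1

/-!
Project QF, job QF-OP, part 2: the L-function, the short polynomial and the smoothed sum over
`Y < n ≤ Z`.
-/

set_option autoImplicit false

namespace Pool.Agent.Y975.QF

open MeasureTheory Set Filter Complex Topology
open Pool.Agent.Y752.QF

noncomputable section

lemma cv_norm (p : DC) (n : ℕ) : ‖cv p n‖ ≤ 1 := DirichletCharacter.norm_le_one p.2 _

lemma pow_norm (n : ℕ) (u : ℝ) : ‖(n : ℂ) ^ (-(1 / 2 + I * (u : ℂ)))‖ ≤ 1 := by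
  have hre : (-(1 / 2 + I * (u : ℂ))).re = -(1 / 2) := by simp
  rcases Nat.eq_zero_or_pos n with rfl | hn
  · have h1 : -(1 / 2 + I * (u : ℂ)) ≠ 0 := by
      intro h
      rw [h] at hre
      norm_num at hre
    rw [Nat.cast_zero, Complex.zero_cpow h1, norm_zero]
    exact zero_le_one
  · rw [Complex.norm_natCast_cpow_of_pos hn, hre]
    exact Real.rpow_le_one_of_one_le_of_nonpos (by exact_mod_cast hn) (by norm_num)

lemma pow_exp {n : ℕ} (hn : 1 ≤ n) (u : ℝ) : (n : ℂ) ^ (-(1 / 2 + I * (u : ℂ))) =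
    (((√(n : ℝ))⁻¹ : ℝ) : ℂ) * Complex.exp (-(I * u * (Real.log n : ℝ))) := by
  have hn0 : (n : ℂ) ≠ 0 := by
    have : n ≠ 0 := by omega
    exact_mod_cast this
  have hn1 : (0 : ℝ) < n := by exact_mod_cast hn
  rw [Complex.cpow_def_of_ne_zero hn0, ← Complex.natCast_log]
  have h1 : ((Real.log n : ℝ) : ℂ) * -(1 / 2 + I * (u : ℂ)) =
      ((-(1 / 2 * Real.log n) : ℝ) : ℂ) + -(I * u * (Real.log n : ℝ)) := by
    push_cast
    ring
  rw [h1, Complex.exp_add, ← Complex.ofReal_exp]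
  congr 2
  rw [Real.exp_neg]
  congr 1
  rw [Real.sqrt_eq_rpow, Real.rpow_def_of_pos hn1]
  congr 1
  ring

/-- the smoothed sum over `Y < n ≤ Z` -/
def TT (R : ℕ) (N : ℝ) (Y Z : ℕ) (p : DC) (u : ℝ) : ℂ :=
  ∑ n ∈ Finset.Ioc Y Z, cv p n * (n : ℂ) ^ (-(1 / 2 + I * (u : ℂ))) * (cut R (n / N) : ℂ)

lemma TT_exp (R : ℕ) (N : ℝ) (Y Z : ℕ) (p : DC) (u : ℝ) : TT R N Y Z p u =
    ∑ n ∈ Finset.Ioc Y Z, (cv p n * ((cut R (n / N) / √(n : ℝ) : ℝ) : ℂ)) *
      Complex.exp (-(I * u * (Real.log n : ℝ))) := by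
  refine Finset.sum_congr rfl fun n hn => ?_
  have h1 : 1 ≤ n := by
    rw [Finset.mem_Ioc] at hn
    omega
  rw [pow_exp h1 u, div_eq_mul_inv]
  push_cast
  ring

lemma exp_sq {H : ℝ} (hH : 0 < H) : (H ^ 2 + 1) * Real.exp (-H) ≤ 7 / H := by
  have h2 := Real.pow_div_factorial_le_exp H hH.le 3
  have h3 : ((3 : ℕ).factorial : ℝ) = 6 := by norm_num [Nat.factorial]
  rw [h3] at h2
  have h4 := Real.add_one_le_exp H
  have h5 := Real.exp_pos H
  rw [Real.exp_neg, ← div_eq_mul_inv, div_le_div_iff₀ h5 hH]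
  nlinarith

theorem err (hL : S_L1) (R : ℕ) (hR : 2 ≤ R) : ∃ E : ℝ, 0 < E ∧
    ∀ (A e X H : ℝ) (Y Z : ℕ) (p : DC) (u : ℝ), 0 < e → |A| + 3 ≤ e * R → 2 ≤ X → X ≤ H →
    H ≤ X ^ A → 1 ≤ Y → (Y : ℝ) ≤ H → H ^ 3 ≤ Z → Y ≤ Z → p.1 ≠ 0 → p.2 ≠ 1 →
    (p.1 : ℝ) * X ^ e ≤ H → 0 ≤ u → u ≤ H →
    ‖LL p (1 / 2 + I * (u : ℂ)) - PY Y p u - TT R (p.1 * H * X ^ e) Y Z p u‖ ≤ E / X := by
  obtain ⟨C, hC, hCL⟩ := hL R hR
  refine ⟨C * 2 ^ R + 1 + 7 * (R + 1), by positivity, ?_⟩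
  intro A e X H Y Z p u he hAR hX hXH hHA hY hYH hZ hYZ hp0 hp1 hqH hu0 huH
  have hX0 : 0 < X := by linarith
  have hX1 : 1 ≤ X := by linarith
  have hH0 : 0 < H := by linarith
  have hq1 : (1 : ℝ) ≤ p.1 := by exact_mod_cast Nat.one_le_iff_ne_zero.2 hp0
  have hXe : 1 ≤ X ^ e := Real.one_le_rpow hX1 he.le
  have hXe0 : 0 < X ^ e := by linarith
  set N : ℝ := p.1 * H * X ^ e with hN
  have hHN : H ≤ N := by
    rw [hN]
    have h1 : H ≤ p.1 * H := by nlinarith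
    have h2 : 0 ≤ p.1 * H := by positivity
    nlinarith
  have hN0 : 0 < N := by linarith
  have hN1 : 1 ≤ N := by linarith
  have hNH : N ≤ H ^ 2 := by
    have : N = (p.1 * X ^ e) * H := by rw [hN]; ring
    rw [this, sq]
    exact mul_le_mul_of_nonneg_right hqH hH0.le
  set ρ : ℝ := (X ^ e)⁻¹ with hρ
  have hρ0 : 0 < ρ := by rw [hρ]; positivity
  have hρ1 : ρ ≤ 1 := inv_le_one_of_one_le₀ hXe
  have hsmall : X ^ A * ρ ^ R ≤ 1 / X := by
    have e1 : ρ ^ R = X ^ (-(e * R)) := by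
      rw [hρ, Real.rpow_neg hX0.le, Real.rpow_mul hX0.le, Real.rpow_natCast, inv_pow]
    rw [e1, ← Real.rpow_add hX0, one_div, ← Real.rpow_neg_one]
    refine Real.rpow_le_rpow_of_exponent_le hX1 ?_
    have := le_abs_self A
    linarith
  -- the series
  set f : ℕ → ℂ := fun n => cv p n * (n : ℂ) ^ (-(1 / 2 + I * (u : ℂ))) * (cut R (n / N) : ℂ)
    with hf
  have hxn : ∀ n : ℕ, (0 : ℝ) ≤ n / N := fun n => by positivity
  set r : ℝ := Real.exp (-(1 / N)) with hr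
  have hr0 : 0 < r := Real.exp_pos _
  have hr1 : r ≤ N / (N + 1) := by
    rw [hr, Real.exp_neg, inv_eq_one_div, div_le_div_iff₀ (Real.exp_pos _) (by linarith)]
    have h1 := Real.add_one_le_exp (1 / N)
    have h2 : N * (1 / N + 1) = N + 1 := by field_simp; ring
    nlinarith
  have hr2 : r < 1 := by
    refine hr1.trans_lt ?_
    rw [div_lt_one (by linarith)]
    linarith
  have hrn : ∀ n : ℕ, Real.exp (-((n : ℝ) / N)) = r ^ n := by
    intro n
    rw [hr, ← Real.exp_nat_mul]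
    congr 1
    ring
  have hfb : ∀ n, ‖f n‖ ≤ (R + 1) * r ^ n := by
    intro n
    rw [hf]
    simp only
    rw [norm_mul, norm_mul, Complex.norm_real, Real.norm_eq_abs, abs_of_nonneg
      (cut_nonneg R (hxn n)), ← hrn n]
    have h1 := cv_norm p n
    have h2 := pow_norm n u
    have h3 := cut_exp R (hxn n)
    have h4 := cut_nonneg R (hxn n)
    calc ‖cv p n‖ * ‖(n : ℂ) ^ (-(1 / 2 + I * (u : ℂ)))‖ * cut R (n / N) ≤ 1 * 1 * cut R (n / N) := by
          gcongr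
      _ ≤ _ := by linarith
  have hsum : Summable f :=
    Summable.of_norm_bounded ((summable_geometric_of_lt_one hr0.le hr2).mul_left _) hfb
  have hsplit := hsum.sum_add_tsum_nat_add (Z + 1)
  have hrange : ∑ n ∈ Finset.range (Z + 1), f n =
      ∑ n ∈ Finset.Icc 1 Y, f n + TT R N Y Z p u := by
    have h0 : f 0 = 0 := by
      have hre : (-(1 / 2 + I * (u : ℂ))).re = -(1 / 2) := by simp
      have h1 : -(1 / 2 + I * (u : ℂ)) ≠ 0 := by
        intro h
        rw [h] at hre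
        norm_num at hre
      rw [hf]
      simp only [Nat.cast_zero]
      rw [Complex.zero_cpow h1, mul_zero, zero_mul]
    have h1 : Finset.range (Z + 1) = insert 0 (Finset.Icc 1 Y ∪ Finset.Ioc Y Z) := by
      ext n
      simp only [Finset.mem_range, Finset.mem_insert, Finset.mem_union, Finset.mem_Icc,
        Finset.mem_Ioc]
      omega
    rw [h1, Finset.sum_insert, h0, zero_add, Finset.sum_union]
    · rfl
    · rw [Finset.disjoint_left]
      intro n hn hn'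
      rw [Finset.mem_Icc] at hn
      rw [Finset.mem_Ioc] at hn'
      omega
    · simp
  -- the tail
  have htail : ‖∑' n, f (n + (Z + 1))‖ ≤ 7 * (R + 1) / X := by
    have hg : HasSum (fun n : ℕ => (R + 1) * r ^ (Z + 1) * r ^ n)
        ((R + 1) * r ^ (Z + 1) * (1 - r)⁻¹) :=
      (hasSum_geometric_of_lt_one hr0.le hr2).mul_left _
    have h1 := tsum_of_norm_bounded hg (f := fun n => f (n + (Z + 1))) (fun n => by
      refine (hfb _).trans (le_of_eq ?_)
      rw [pow_add]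
      ring)
    refine h1.trans ?_
    have h2 : r ^ (Z + 1) ≤ Real.exp (-H) := by
      rw [← hrn (Z + 1)]
      refine Real.exp_le_exp.2 (neg_le_neg ?_)
      rw [le_div_iff₀ hN0]
      push_cast
      calc H * N ≤ H * H ^ 2 := mul_le_mul_of_nonneg_left hNH hH0.le
        _ = H ^ 3 := by ring
        _ ≤ Z + 1 := by linarith
    have h3 : (1 - r)⁻¹ ≤ H ^ 2 + 1 := by
      have h4 : 1 / (N + 1) ≤ 1 - r := by
        have : 1 - N / (N + 1) = 1 / (N + 1) := by field_simp; ring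
        linarith
      have h5 : (1 - r)⁻¹ ≤ (1 / (N + 1))⁻¹ := inv_anti₀ (by positivity) h4
      rw [one_div, inv_inv] at h5
      linarith
    have h4 : 0 ≤ (1 - r)⁻¹ := inv_nonneg.2 (by linarith)
    calc (R + 1) * r ^ (Z + 1) * (1 - r)⁻¹ ≤ (R + 1) * Real.exp (-H) * (H ^ 2 + 1) := by
          gcongr
      _ = (R + 1) * ((H ^ 2 + 1) * Real.exp (-H)) := by ring
      _ ≤ (R + 1) * (7 / H) := mul_le_mul_of_nonneg_left (exp_sq hH0) (by positivity)
      _ ≤ (R + 1) * (7 / X) := by gcongr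
      _ = _ := by ring
  -- the short part
  have hshort : ‖∑ n ∈ Finset.Icc 1 Y, f n - PY Y p u‖ ≤ 1 / X := by
    have h1 : ∑ n ∈ Finset.Icc 1 Y, f n - PY Y p u = ∑ n ∈ Finset.Icc 1 Y,
        cv p n * (n : ℂ) ^ (-(1 / 2 + I * (u : ℂ))) * (((cut R (n / N) - 1 : ℝ)) : ℂ) := by
      unfold PY
      rw [← Finset.sum_sub_distrib]
      refine Finset.sum_congr rfl fun n _ => ?_
      rw [hf]
      push_cast
      ring
    rw [h1]
    have h2 : ∀ n ∈ Finset.Icc 1 Y, ‖cv p n * (n : ℂ) ^ (-(1 / 2 + I * (u : ℂ))) *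
        (((cut R (n / N) - 1 : ℝ)) : ℂ)‖ ≤ ρ ^ R := by
      intro n hn
      rw [Finset.mem_Icc] at hn
      rw [norm_mul, norm_mul, Complex.norm_real, Real.norm_eq_abs, abs_sub_comm,
        abs_of_nonneg (by have := cut_le_one R (hxn n); linarith)]
      have h3 := cut_one R (hxn n)
      have h4 : (n : ℝ) / N ≤ ρ := by
        rw [div_le_iff₀ hN0, hρ]
        have h5 : (X ^ e)⁻¹ * N = p.1 * H := by
          rw [hN]
          field_simp
        rw [h5]
        have h6 : (n : ℝ) ≤ Y := by exact_mod_cast hn.2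
        nlinarith
      have h5 : ((n : ℝ) / N) ^ (R + 1) ≤ ρ ^ (R + 1) := pow_le_pow_left₀ (hxn n) h4 _
      have h6 : ρ ^ (R + 1) ≤ ρ ^ R := pow_le_pow_of_le_one hρ0.le hρ1 (Nat.le_succ R)
      have h7 : 0 ≤ 1 - cut R (n / N) := by have := cut_le_one R (hxn n); linarith
      calc ‖cv p n‖ * ‖(n : ℂ) ^ (-(1 / 2 + I * (u : ℂ)))‖ * (1 - cut R (n / N))
          ≤ 1 * 1 * (1 - cut R (n / N)) := by
            have := cv_norm p n
            have := pow_norm n u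
            gcongr
        _ ≤ _ := by linarith
    refine (norm_sum_le_of_le _ h2).trans ?_
    rw [Finset.sum_const, Nat.card_Icc, Nat.add_sub_cancel, nsmul_eq_mul]
    calc (Y : ℝ) * ρ ^ R ≤ X ^ A * ρ ^ R := by
          have : (Y : ℝ) ≤ X ^ A := hYH.trans hHA
          gcongr
      _ ≤ _ := hsmall
  -- the approximate functional equation
  have hmain : ‖LL p (1 / 2 + I * (u : ℂ)) - ∑' n, f n‖ ≤ C * 2 ^ R / X := by
    refine (hCL p u N hp0 hp1 hN1).trans ?_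
    have h1 : N ^ (1 / 2 - (R : ℝ)) = N ^ (1 / 2 : ℝ) / N ^ R := by
      rw [Real.rpow_sub hN0, Real.rpow_natCast]
    have h2 : N ^ (1 / 2 : ℝ) ≤ H := by
      rw [← Real.sqrt_eq_rpow]
      exact Real.sqrt_le_iff.2 ⟨hH0.le, hNH⟩
    have h3 : 2 + |u| ≤ 2 * H := by
      rw [abs_of_nonneg hu0]
      linarith
    rw [h1]
    calc C * (p.1 : ℝ) ^ R * (2 + |u|) ^ R * (N ^ (1 / 2 : ℝ) / N ^ R)
        ≤ C * (p.1 : ℝ) ^ R * (2 * H) ^ R * (H / N ^ R) := by
          gcongr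
      _ = C * 2 ^ R * (H * ((p.1 * H) / N) ^ R) := by
          rw [div_pow, mul_pow, mul_pow]
          ring
      _ = C * 2 ^ R * (H * ρ ^ R) := by
          congr 3
          rw [hN, hρ]
          field_simp
      _ ≤ C * 2 ^ R * (X ^ A * ρ ^ R) := by gcongr
      _ ≤ C * 2 ^ R * (1 / X) := mul_le_mul_of_nonneg_left hsmall (by positivity)
      _ = _ := by ring
  have hfin : LL p (1 / 2 + I * (u : ℂ)) - PY Y p u - TT R N Y Z p u =
      (LL p (1 / 2 + I * (u : ℂ)) - ∑' n, f n) + (∑ n ∈ Finset.Icc 1 Y, f n - PY Y p u) +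
        ∑' n, f (n + (Z + 1)) := by
    rw [← hsplit, hrange]
    ring
  rw [hfin]
  refine (norm_add₃_le).trans ?_
  calc ‖LL p (1 / 2 + I * (u : ℂ)) - ∑' n, f n‖ + ‖∑ n ∈ Finset.Icc 1 Y, f n - PY Y p u‖ +
        ‖∑' n, f (n + (Z + 1))‖ ≤ C * 2 ^ R / X + 1 / X + 7 * (R + 1) / X :=
        add_le_add (add_le_add hmain hshort) htail
    _ = _ := by ring

end

end Pool.Agent.Y975.QF
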